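import Pool.Agent.Helper59.HR.Spec

/-!
# FIL: the sum of the ranks is at most the number of the facets
-/

set_option autoImplicit false
set_option linter.unusedSectionVars false

open MvPolynomial Pool.Agent.Helper59.LP

namespace Pool.Agent.Helper72.HR.FIL

/-- linear algebra: rank modulo a subspace -/
lemma lin {V W U : Type*} [AddCommGroup V] [Module ℝ V] [Module.Finite ℝ V] [AddCommGroup W]
    [Module ℝ W] [Module.Finite ℝ W] [AddCommGroup U] [Module ℝ U] (T : V →ₗ[ℝ] W)
    (H : V →ₗ[ℝ] U) (G : Submodule ℝ W) (h : ∀ a, T a ∈ G → H a = 0) :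
    Module.finrank ℝ (LinearMap.range H) + Module.finrank ℝ G ≤
      Module.finrank ℝ ↥(G ⊔ LinearMap.range T) := by
  set T' : V →ₗ[ℝ] W ⧸ G := G.mkQ.comp T with hT'
  have h1 := LinearMap.finrank_range_add_finrank_ker H
  have h2 := LinearMap.finrank_range_add_finrank_ker T'
  have h3 : Module.finrank ℝ (LinearMap.ker T') ≤ Module.finrank ℝ (LinearMap.ker H) := by
    apply Submodule.finrank_mono
    intro a ha
    rw [LinearMap.mem_ker] at ha ⊢
    apply h
    rw [hT', LinearMap.comp_apply, Submodule.mkQ_apply, Submodule.Quotient.mk_eq_zero] at ha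
    exact ha
  set X : Submodule ℝ W := G ⊔ LinearMap.range T with hX
  have hGX : G ≤ X := le_sup_left
  have h4 := LinearMap.finrank_range_add_finrank_ker (G.mkQ.domRestrict X)
  have h5 : Module.finrank ℝ (LinearMap.ker (G.mkQ.domRestrict X)) = Module.finrank ℝ G := by
    have h6 : LinearMap.ker (G.mkQ.domRestrict X) = G.comap X.subtype := by
      ext x
      simp [LinearMap.mem_ker, LinearMap.domRestrict_apply]
    rw [h6]
    exact (Submodule.comapSubtypeEquivOfLe hGX).finrank_eq
  have h7 : Module.finrank ℝ (LinearMap.range T') ≤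
      Module.finrank ℝ (LinearMap.range (G.mkQ.domRestrict X)) := by
    apply Submodule.finrank_mono
    rintro _ ⟨a, rfl⟩
    exact ⟨⟨T a, le_sup_right (a := G) (LinearMap.mem_range_self T a)⟩, rfl⟩
  omega

section

variable {J : Type} [Fintype J] [DecidableEq J] {d : ℕ}

/-- the evaluation at the facets of `N` -/
noncomputable def E (v : J → Ve d) (ξ : Ve d) (N : Finset (Finset J)) :
    MvPolynomial J ℝ →ₗ[ℝ] (N → ℝ) :=
  LinearMap.pi fun σ => (aeval (cf v ξ (σ : Finset J))).toLinearMap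

/-- the polynomials of degree `< k` -/
noncomputable def Q (J : Type) (k : ℕ) : Submodule ℝ (MvPolynomial J ℝ) :=
  ⨆ i, ⨆ (_ : i < k), homogeneousSubmodule J ℝ i

lemma E_mul {v : J → Ve d} {ξ : Ve d} {N : Finset (Finset J)} {a a' : MvPolynomial J ℝ}
    (h : E v ξ N a = E v ξ N a') (F : Finset J) (b : MvPolynomial J ℝ) :
    fnS v ξ N F (a * b) = fnS v ξ N F (a' * b) := by
  unfold fnS dgS
  simp only [LinearMap.comp_apply, LinearMap.mulLeft_apply, LinearMap.sum_apply]
  refine Finset.sum_congr rfl fun σ hσ => ?_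
  have h1 := congrFun h ⟨σ, hσ⟩
  simp only [E, LinearMap.pi_apply, AlgHom.toLinearMap_apply] at h1
  simp only [tm, LinearMap.smul_apply, AlgHom.toLinearMap_apply, map_mul, h1]

lemma Q_ker (φ : MvPolynomial J ℝ →ₗ[ℝ] ℝ) (n k : ℕ) (hk : k ≤ n)
    (hφ : ∀ k f, k < n → f.IsHomogeneous k → φ f = 0) (b : MvPolynomial J ℝ)
    (hb : b.IsHomogeneous (n - k)) {a : MvPolynomial J ℝ} (ha : a ∈ Q J k) : φ (a * b) = 0 := by
  have h1 : Q J k ≤ LinearMap.ker (φ.comp (LinearMap.mulRight ℝ b)) := by
    refine iSup_le fun i => iSup_le fun hi => ?_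
    intro f hf
    rw [mem_homogeneousSubmodule] at hf
    rw [LinearMap.mem_ker, LinearMap.comp_apply, LinearMap.mulRight_apply]
    exact hφ (i + (n - k)) _ (by omega) (hf.mul hb)
  have h2 := h1 ha
  rwa [LinearMap.mem_ker, LinearMap.comp_apply, LinearMap.mulRight_apply] at h2

theorem main (hNF : S_NF) : S_FIL := by
  intro J _ _ d v ξ c F n hGX hF hVan
  set N : Finset (Finset J) := (Fa v c).filter fun σ => F ⊆ σ with hN
  have hFa : ∀ σ ∈ Fa v c, σ.card = d ∧ Ind v σ := by
    intro σ hσ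
    simp only [Fa, Finset.mem_filter] at hσ
    exact ⟨hσ.2.1, hσ.2.2.1⟩
  have hφ : ∀ f, fn v ξ c F f = fnS v ξ N F f := (hNF J d v ξ (Fa v c) F hFa).1
  have key : ∀ k, k ≤ n → rk (fn v ξ c F) n k + Module.finrank ℝ ((Q J k).map (E v ξ N)) ≤
      Module.finrank ℝ ((Q J (k + 1)).map (E v ξ N)) := by
    intro k hk
    have h1 := lin ((E v ξ N).comp (homogeneousSubmodule J ℝ k).subtype)
      (Hf (fn v ξ c F) k (n - k)) ((Q J k).map (E v ξ N)) (by
        rintro ⟨a, ha⟩ h2
        obtain ⟨a', ha', h3⟩ := h2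
        rw [LinearMap.comp_apply, Submodule.subtype_apply] at h3
        ext ⟨b, hb⟩
        change fn v ξ c F (a * b) = 0
        rw [hφ, ← E_mul h3 F b, ← hφ]
        exact Q_ker _ n k hk hVan.1 b ((mem_homogeneousSubmodule _ _).1 hb) ha')
    refine le_trans h1 (Submodule.finrank_mono ?_)
    refine sup_le (Submodule.map_mono ?_) ?_
    · refine iSup_le fun i => iSup_le fun hi => ?_
      exact le_iSup_of_le i (le_iSup_of_le (by omega) le_rfl)
    · rintro _ ⟨⟨a, ha⟩, rfl⟩
      refine ⟨a, ?_, rfl⟩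
      exact (le_iSup_of_le k (le_iSup_of_le (by omega) le_rfl) :
        homogeneousSubmodule J ℝ k ≤ Q J (k + 1)) ha
  have hsum : ∀ m, m ≤ n + 1 → ∑ k ∈ Finset.range m, rk (fn v ξ c F) n k ≤
      Module.finrank ℝ ((Q J m).map (E v ξ N)) := by
    intro m
    induction m with
    | zero => intro _; simp
    | succ m ih =>
      intro hm
      rw [Finset.sum_range_succ]
      have h1 := ih (by omega)
      have h2 := key m (by omega)
      omega
  refine le_trans (hsum (n + 1) le_rfl) ?_
  refine le_trans (Submodule.finrank_le _) ?_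
  rw [Module.finrank_fintype_fun_eq_card, Fintype.card_coe]

end

end Pool.Agent.Helper72.HR.FIL
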